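import Pool.Agent.T9h67.OT.Comm

/-!
# In oblivious transfer both parties send superlogarithmically many bits
-/

set_option autoImplicit false

namespace Pool.Agent.Results.MP_ae38e0_lc.BitsSent

open Filter
open Pool.Agent.T9h67.OT

/-- the function of 1-out-of-2 bit oblivious transfer -/
def ot (c : Bool) (b : Bool × Bool) : Bool := if c then b.2 else b.1

/-- the tests by `K` simulations of one party -/
def IsSimulation {X Y Z : Type} [DecidableEq Z] {a b : ℕ} (P : Protocol X Y Z a b) (K : ℕ)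
    (g : (Fin P.n → Bool) → ℝ) : Prop :=
  (∃ x z, g = P.simReceiver K x z) ∨ ∃ y, g = P.simSender K y

theorem ot_minor : ∃ x x' y y', ot x y = ot x y' ∧ ot x' y ≠ ot x' y' :=
  ⟨false, true, (false, false), (false, true), by decide, by decide⟩

theorem bounds {X Y Z : Type} [DecidableEq Z] {f : X → Y → Z} {a b : ℕ} (K : ℕ)
    (P : Protocol X Y Z a b) {δ ε ε' : ℝ}
    (hf : ∃ x x' y y', f x y = f x y' ∧ f x' y ≠ f x' y')
    (hc : P.Correct f δ) (hr : P.ReceiverPrivate (IsSimulation P K) ε)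
    (hs : P.SenderPrivate f (IsSimulation P K) ε') :
    1 ≤ 2 * δ + 2 * ε + ε' + 2 ^ P.sent false / (K + 1) ∧
      1 ≤ (K + 1) * δ + ε + ε' + 2 ^ P.sent true / (K + 1) := by
  obtain ⟨x, x', y, y', h1, h2⟩ := hf
  exact ⟨few_received P _ h1 h2 K (Or.inl ⟨_, _, rfl⟩) hc hr hs,
    few_sent P _ h1 h2 K (Or.inr ⟨_, rfl⟩) hc hr hs⟩

theorem result :
    (∀ (X Y Z : Type) [DecidableEq Z] (f : X → Y → Z) (a b K : ℕ) (P : Protocol X Y Z a b)
      (δ ε ε' : ℝ), (∃ x x' y y', f x y = f x y' ∧ f x' y ≠ f x' y') →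
      P.Correct f δ → P.ReceiverPrivate (IsSimulation P K) ε →
      P.SenderPrivate f (IsSimulation P K) ε' →
      1 ≤ 2 * δ + 2 * ε + ε' + 2 ^ P.sent false / (K + 1) ∧
      1 ≤ (K + 1) * δ + ε + ε' + 2 ^ P.sent true / (K + 1)) ∧
    (∀ (a b : ℕ → ℕ) (P : ∀ k, Protocol Bool (Bool × Bool) Bool (a k) (b k)),
      (∀ C : ℕ, ∃ δ ε ε' : ℕ → ℝ, Tendsto (fun k : ℕ => (k : ℝ) ^ C * δ k) atTop (nhds 0) ∧
        Tendsto ε atTop (nhds 0) ∧ Tendsto ε' atTop (nhds 0) ∧ ∀ k, (P k).Correct ot (δ k) ∧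
        (P k).ReceiverPrivate (IsSimulation (P k) (k ^ C)) (ε k) ∧
        (P k).SenderPrivate ot (IsSimulation (P k) (k ^ C)) (ε' k)) →
      ∀ C : ℕ, ∀ᶠ k in atTop, k ^ C < 2 ^ (P k).sent false ∧ k ^ C < 2 ^ (P k).sent true) := by
  refine ⟨fun X Y Z _ f a b K P δ ε ε' hf hc hr hs => bounds K P hf hc hr hs, ?_⟩
  intro a b P h C
  obtain ⟨δ, ε, ε', h1, h2, h3, h4⟩ := h (C + 1)
  have h5 : Tendsto (fun k : ℕ => 4 * ((k : ℝ) ^ (C + 1) * δ k) + 2 * ε k + ε' k) atTop (nhds 0) := by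
    have := ((h1.const_mul 4).add (h2.const_mul 2)).add h3
    simpa using this
  filter_upwards [h5.eventually (gt_mem_nhds (show (0 : ℝ) < 1 / 2 by norm_num)),
    eventually_ge_atTop 2] with k hk hk2
  obtain ⟨c1, c2, c3⟩ := h4 k
  obtain ⟨b1, b2⟩ := bounds (k ^ (C + 1)) (P k) ot_minor c1 c2 c3
  have hδ : 0 ≤ δ k := by
    refine le_trans ?_ (c1 true (true, true))
    rw [error_eq]
    exact Finset.sum_nonneg fun τ _ => mul_nonneg (Party.tot_nonneg _ _)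
      (sub_nonneg.2 (outWt_le (P k) _ _ _))
  have hε : 0 ≤ ε k := (abs_nonneg _).trans (c2 true true (true, true) _ (Or.inr ⟨(true, true), rfl⟩))
  have hε' : 0 ≤ ε' k :=
    (abs_nonneg _).trans (c3 true (true, true) (true, true) _ rfl (Or.inr ⟨(true, true), rfl⟩))
  have hk1 : (1 : ℝ) ≤ (k : ℝ) ^ (C + 1) :=
    one_le_pow₀ (by exact_mod_cast (by omega : 1 ≤ k))
  have hKδ : ((k ^ (C + 1) : ℕ) + 1 : ℝ) * δ k ≤ 2 * ((k : ℝ) ^ (C + 1) * δ k) := by
    push_cast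
    nlinarith
  have hδK : δ k ≤ (k : ℝ) ^ (C + 1) * δ k := le_mul_of_one_le_left hδ hk1
  have hpos : (0 : ℝ) < ((k ^ (C + 1) : ℕ) : ℝ) + 1 := by positivity
  have fin : ∀ s : ℕ, (1 : ℝ) / 2 ≤ 2 ^ s / (((k ^ (C + 1) : ℕ) : ℝ) + 1) → k ^ C < 2 ^ s := by
    intro s hs
    rw [le_div_iff₀ hpos] at hs
    have e : (k : ℝ) ^ C < 2 ^ s := by
      have e1 : 2 * (k : ℝ) ^ C ≤ (k : ℝ) ^ (C + 1) := by
        rw [pow_succ, mul_comm]
        exact mul_le_mul_of_nonneg_left (by exact_mod_cast hk2) (by positivity)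
      push_cast at hs
      linarith
    exact_mod_cast e
  exact ⟨fin _ (by linarith), fin _ (by linarith)⟩

end Pool.Agent.Results.MP_ae38e0_lc.BitsSent
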