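import Pool.Agent.T9h85.OT.Main

/-!
# Oblivious transfer needs private memory of superlogarithmic treewidth

Each party knows the whole transcript, and has an unlimited private memory of cells with `a` states; in
every round it reads some cells, chosen by the transcript, and writes a new one. The graph of the
memory joins the cells that are involved in a common round. If its treewidth is at most `w`, then the
probability that the party agrees with a given transcript can be computed, and random contents of the
cells, given the transcript, can be drawn, by dynamic programming over a tree decomposition, with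
`a ^ (w + 1)` operations per cell. So the receiver can compare two inputs of a sender of this kind, and
the sender can draw the memory of a receiver of this kind for each of its inputs, and look at the
output. Hence `a ^ (w + 1)` must be superpolynomial in oblivious transfer, for both parties. In
particular some round has to read two cells, if the cells have logarithmic size.
-/

set_option autoImplicit false

namespace Pool.Agent.Results.MP_ae38e0_lc.MemoryTreewidth

open Filter
open Pool.Agent.T9h85.OT

/-- the function of 1-out-of-2 bit oblivious transfer -/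
def ot (c : Bool) (b : Bool × Bool) : Bool := if c then b.2 else b.1

theorem ot_minor : ∃ x x' y y', ot x y = ot x y' ∧ ot x' y ≠ ot x' y' :=
  ⟨false, true, (false, false), (false, true), by decide, by decide⟩

theorem result :
    (∀ (X Y Z : Type) (f : X → Y → Z) (a b K : ℕ) (P : Protocol X Y Z a b)
      (δ ε ε' : ℝ),
      (∃ x x' y y', f x y = f x y' ∧ f x' y ≠ f x' y') →
      P.Correct f δ → P.ReceiverPrivate (P.IsTest K) ε →
      P.SenderPrivate f (P.IsTest K) ε' → 6 * δ + 2 * ε + 2 * ε' < 1 →
      ∀ w : ℕ, ((∀ y, (P.sender y).WidthLE P.n w) → K < a ^ (w + 1)) ∧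
        ((∀ x, (P.receiver x).WidthLE P.n w) → K < b ^ (w + 1))) ∧
    (∀ (a b : ℕ → ℕ) (P : ∀ k, Protocol Bool (Bool × Bool) Bool (a k) (b k)),
      (∀ C : ℕ, ∃ δ ε ε' : ℕ → ℝ, Tendsto δ atTop (nhds 0) ∧ Tendsto ε atTop (nhds 0) ∧
        Tendsto ε' atTop (nhds 0) ∧ ∀ k, (P k).Correct ot (δ k) ∧
        (P k).ReceiverPrivate ((P k).IsTest (k ^ C)) (ε k) ∧
        (P k).SenderPrivate ot ((P k).IsTest (k ^ C)) (ε' k)) →
      ∀ C : ℕ, ∀ᶠ k in atTop,
        (∀ w : ℕ, ((∀ y, ((P k).sender y).WidthLE (P k).n w) → k ^ C < a k ^ (w + 1)) ∧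
          ((∀ x, ((P k).receiver x).WidthLE (P k).n w) → k ^ C < b k ^ (w + 1))) ∧
        ((∀ y, ((P k).sender y).OneRead (P k).n) → k ^ C < a k) ∧
        ((∀ x, ((P k).receiver x).OneRead (P k).n) → k ^ C < b k)) := by
  refine ⟨fun X Y Z f a b K P δ ε ε' hf hc hr hs h w => width P hf hc hr hs h w, ?_⟩
  intro a b P h
  have main : ∀ C : ℕ, ∀ᶠ k in atTop,
      ∀ w : ℕ, ((∀ y, ((P k).sender y).WidthLE (P k).n w) → k ^ C < a k ^ (w + 1)) ∧
        ((∀ x, ((P k).receiver x).WidthLE (P k).n w) → k ^ C < b k ^ (w + 1)) := by
    intro C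
    obtain ⟨δ, ε, ε', h1, h2, h3, h4⟩ := h C
    have h5 : Tendsto (fun k => 6 * δ k + 2 * ε k + 2 * ε' k) atTop (nhds 0) := by
      have := ((h1.const_mul 6).add (h2.const_mul 2)).add (h3.const_mul 2)
      simpa using this
    filter_upwards [h5.eventually (gt_mem_nhds (show (0 : ℝ) < 1 by norm_num))] with k hk w
    obtain ⟨c1, c2, c3⟩ := h4 k
    exact width (P k) ot_minor c1 c2 c3 hk w
  intro C
  filter_upwards [main C, main (C * 2)] with k h1 h2
  refine ⟨h1, fun ho => ?_, fun ho => ?_⟩
  · have h3 := (h2 1).1 fun y => widthLE_one _ (ho y)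
    rw [pow_mul] at h3
    exact lt_of_pow_lt_pow_left₀ 2 (Nat.zero_le _) h3
  · have h3 := (h2 1).2 fun x => widthLE_one _ (ho x)
    rw [pow_mul] at h3
    exact lt_of_pow_lt_pow_left₀ 2 (Nat.zero_le _) h3

end Pool.Agent.Results.MP_ae38e0_lc.MemoryTreewidth
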