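import Pool.Agent.T9h61.OTC.Main

/-!
# Oblivious transfer needs superlogarithmically many nonlinear coins of both parties

The coins of a party are a branch `s` out of `a` branches (with any distribution) and a uniform vector
`u` over a finite commutative ring, of any length. If all messages of the sender are affine functions of `u` (for
each input, transcript and branch), then the coins that agree with a transcript are the solutions of
`a` systems of linear equations. So the receiver can compare the probabilities of the transcript for
two inputs of the sender; if the messages of the receiver are affine in its `u`, then the sender can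
draw random coins of the receiver that agree with the transcript, for each of its inputs. All tests
use the programs of the parties only.
-/

set_option autoImplicit false

namespace Pool.Agent.Results.MP_ae38e0_lc.NonlinearCoins

open Filter
open Pool.Agent.T9h61.OTC

/-- the function of 1-out-of-2 bit oblivious transfer -/
def ot (c : Bool) (b : Bool × Bool) : Bool := if c then b.2 else b.1

theorem ot_minor : ∃ x x' y y', ot x y = ot x y' ∧ ot x' y ≠ ot x' y' :=
  ⟨false, true, (false, false), (false, true), by decide, by decide⟩

theorem result :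
    (∀ (F X Y Z : Type) [CommRing F] [Fintype F] (f : X → Y → Z) (a r b t K : ℕ)
      (P : Protocol F X Y Z a r b t) (δ ε ε' : ℝ),
      (∃ x x' y y', f x y = f x y' ∧ f x' y ≠ f x' y') →
      P.Correct f δ → P.ReceiverPrivate (P.IsTest K) ε → P.SenderPrivate f (P.IsTest K) ε' →
      6 * δ + 2 * ε + 2 * ε' < 1 →
      ((∀ y, (P.sender y).Affine) → K < a) ∧ ((∀ x, (P.receiver x).Affine) → K < b)) ∧
    (∀ (F : ℕ → Type) [∀ k, CommRing (F k)] [∀ k, Fintype (F k)] (a r b t : ℕ → ℕ)
      (P : ∀ k, Protocol (F k) Bool (Bool × Bool) Bool (a k) (r k) (b k) (t k)),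
      (∀ C : ℕ, ∃ δ ε ε' : ℕ → ℝ, Tendsto δ atTop (nhds 0) ∧ Tendsto ε atTop (nhds 0) ∧
        Tendsto ε' atTop (nhds 0) ∧ ∀ k, (P k).Correct ot (δ k) ∧
        (P k).ReceiverPrivate ((P k).IsTest (k ^ C)) (ε k) ∧
        (P k).SenderPrivate ot ((P k).IsTest (k ^ C)) (ε' k)) →
      ∀ C : ℕ, ∀ᶠ k in atTop,
        ((∀ y, ((P k).sender y).Affine) → k ^ C < a k) ∧
        ((∀ x, ((P k).receiver x).Affine) → k ^ C < b k)) := by
  refine ⟨fun F X Y Z _ _ f a r b t K P δ ε ε' hf hc hr hs h => branches P hf hc hr hs h, ?_⟩
  intro F _ _ a r b t P h C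
  obtain ⟨δ, ε, ε', h1, h2, h3, h4⟩ := h C
  have h5 : Tendsto (fun k => 6 * δ k + 2 * ε k + 2 * ε' k) atTop (nhds 0) := by
    have := ((h1.const_mul 6).add (h2.const_mul 2)).add (h3.const_mul 2)
    simpa using this
  filter_upwards [h5.eventually (gt_mem_nhds (show (0 : ℝ) < 1 by norm_num))] with k hk
  obtain ⟨c1, c2, c3⟩ := h4 k
  exact branches (P k) ot_minor c1 c2 c3 hk

end Pool.Agent.Results.MP_ae38e0_lc.NonlinearCoins
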