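import Pool.Agent.T9h67.OT.Mem

/-!
# Oblivious transfer needs superlogarithmic private memory of both parties
-/

set_option autoImplicit false

namespace Pool.Agent.Results.MP_ae38e0_lc.PrivateMemory

open Filter
open Pool.Agent.T9h67.OT

/-- the function of 1-out-of-2 bit oblivious transfer -/
def ot (c : Bool) (b : Bool × Bool) : Bool := if c then b.2 else b.1

theorem ot_minor : ∃ x x' y y', ot x y = ot x y' ∧ ot x' y ≠ ot x' y' :=
  ⟨false, true, (false, false), (false, true), by decide, by decide⟩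

theorem result :
    (∀ (X Y Z : Type) (f : X → Y → Z) (a b d : ℕ) (P : Protocol X Y Z a b) (δ ε ε' : ℝ),
      (∃ x x' y y', f x y = f x y' ∧ f x' y ≠ f x' y') →
      P.Correct f δ → P.ReceiverPrivate (IsTest d P.n) ε →
      P.SenderPrivate f (IsTest d P.n) ε' → 6 * δ + 2 * ε + 2 * ε' < 1 →
      d < a ∧ d < b) ∧
    (∀ (a b : ℕ → ℕ) (P : ∀ k, Protocol Bool (Bool × Bool) Bool (a k) (b k)),
      (∀ C : ℕ, ∃ δ ε ε' : ℕ → ℝ, Tendsto δ atTop (nhds 0) ∧ Tendsto ε atTop (nhds 0) ∧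
        Tendsto ε' atTop (nhds 0) ∧ ∀ k, (P k).Correct ot (δ k) ∧
        (P k).ReceiverPrivate (IsTest (k ^ C) (P k).n) (ε k) ∧
        (P k).SenderPrivate ot (IsTest (k ^ C) (P k).n) (ε' k)) →
      ∀ C : ℕ, ∀ᶠ k in atTop, k ^ C < a k ∧ k ^ C < b k) := by
  refine ⟨fun X Y Z f a b d P δ ε ε' hf hc hr hs h => memory P hf hc hr hs h, ?_⟩
  intro a b P h C
  obtain ⟨δ, ε, ε', h1, h2, h3, h4⟩ := h C
  have h5 : Tendsto (fun k => 6 * δ k + 2 * ε k + 2 * ε' k) atTop (nhds 0) := by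
    have := ((h1.const_mul 6).add (h2.const_mul 2)).add (h3.const_mul 2)
    simpa using this
  filter_upwards [h5.eventually (gt_mem_nhds (show (0 : ℝ) < 1 by norm_num))] with k hk
  obtain ⟨c1, c2, c3⟩ := h4 k
  exact memory (P k) ot_minor c1 c2 c3 hk

end Pool.Agent.Results.MP_ae38e0_lc.PrivateMemory
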